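import Mathlib

set_option autoImplicit false

namespace Pool.Agent.Results.MP_b6be33_co.NineVertexCounterexample

/-- The eighteen edges (each listed once) of the nine-vertex graph. -/
def edgeList : List (Fin 9 × Fin 9) :=
  [(0, 2), (0, 4), (0, 5), (0, 7), (1, 4), (1, 6), (1, 7), (1, 8), (2, 3),
   (2, 4), (2, 6), (3, 5), (3, 6), (3, 8), (4, 8), (5, 6), (5, 7), (7, 8)]

/-- The nine-vertex graph. -/
def Gr : SimpleGraph (Fin 9) where
  Adj u v := (u, v) ∈ edgeList ∨ (v, u) ∈ edgeList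
  symm := ⟨fun _ _ h => h.symm⟩
  loopless := ⟨by decide⟩

instance : DecidableRel Gr.Adj := fun u v => by
  unfold Gr; exact inferInstanceAs (Decidable (_ ∨ _))

/-- The antimorphism, the permutation (1 2 3 4)(5 6 7 8) fixing 0. -/
def perm : Equiv.Perm (Fin 9) where
  toFun := ![0, 2, 3, 4, 1, 6, 7, 8, 5]
  invFun := ![0, 4, 1, 2, 3, 8, 5, 6, 7]
  left_inv := by decide
  right_inv := by decide

lemma degree_four (u : Fin 9) : (Gr.neighborSet u).ncard = 4 := by
  have h : (Gr.neighborSet u).ncard = (Finset.univ.filter (fun w => Gr.Adj u w)).card := by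
    rw [← Set.ncard_coe_finset]
    congr 1
    ext w
    simp
  rw [h]
  clear h
  revert u
  decide

lemma triangle_mem : ∀ a b c : Fin 9, (Gr.Adj a b ∧ Gr.Adj a c ∧ Gr.Adj b c ∧
    (1 : Fin 9) ∈ ({a, b, c} : Finset (Fin 9))) →
    ({a, b, c} : Finset (Fin 9)) = {1, 4, 8} ∨ ({a, b, c} : Finset (Fin 9)) = {1, 7, 8} := by
  decide

lemma triangles :
    {T : Finset (Fin 9) | Gr.IsNClique 3 T ∧ (1 : Fin 9) ∈ T}.ncard = 2 := by
  have h : {T : Finset (Fin 9) | Gr.IsNClique 3 T ∧ (1 : Fin 9) ∈ T}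
      = ((({({1, 4, 8} : Finset (Fin 9)), {1, 7, 8}} : Finset (Finset (Fin 9)))) : Set (Finset (Fin 9))) := by
    ext T
    simp only [Set.mem_ofPred_eq, Finset.coe_insert, Finset.coe_singleton, Set.mem_insert_iff,
      Set.mem_singleton_iff]
    constructor
    · rintro ⟨hT, h1⟩
      rw [SimpleGraph.is3Clique_iff] at hT
      obtain ⟨a, b, c, hab, hac, hbc, rfl⟩ := hT
      exact triangle_mem a b c ⟨hab, hac, hbc, h1⟩
    · rintro (rfl | rfl)
      · refine ⟨?_, by decide⟩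
        rw [SimpleGraph.is3Clique_iff]
        exact ⟨1, 4, 8, by decide, by decide, by decide, rfl⟩
      · refine ⟨?_, by decide⟩
        rw [SimpleGraph.is3Clique_iff]
        exact ⟨1, 7, 8, by decide, by decide, by decide, rfl⟩
  rw [h, Set.ncard_coe_finset]
  decide

lemma anti : Nonempty (Gr ≃g Grᶜ) := by
  refine ⟨⟨perm, ?_⟩⟩
  intro a b
  revert a b
  simp only [SimpleGraph.compl_adj]
  decide

lemma notFixed (P : Gr ≃g Grᶜ) : P (1 : Fin 9) ≠ (1 : Fin 9) := by
  intro hP'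
  have key : ∀ a b c : Fin 9, Grᶜ.Adj 1 a → Grᶜ.Adj 1 b → Grᶜ.Adj 1 c →
      Grᶜ.Adj a b → Grᶜ.Adj a c → b = c := by
    simp only [SimpleGraph.compl_adj]
    decide
  have m : ∀ a b : Fin 9, Gr.Adj a b → Grᶜ.Adj (P a) (P b) := fun a b h => P.map_rel_iff.mpr h
  have h8 := m 1 8 (by decide)
  have h4 := m 1 4 (by decide)
  have h7 := m 1 7 (by decide)
  rw [hP'] at h8 h4 h7
  have h84 := m 8 4 (by decide)
  have h87 := m 8 7 (by decide)
  have := key _ _ _ h8 h4 h7 h84 h87
  have h47 : (4 : Fin 9) = 7 := P.injective this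
  exact absurd h47 (by decide)

/-- There are `k` (namely `k = 2`), a `2k`-regular self-complementary graph `G` on `4k+1`
vertices and a vertex `v` lying in exactly `k(k-1)` triangles of `G` such that no isomorphism
from `G` onto its complement fixes `v`. -/
theorem result :
    ∃ (k : ℕ) (G : SimpleGraph (Fin (4 * k + 1))) (v : Fin (4 * k + 1)),
      (∀ u, (G.neighborSet u).ncard = 2 * k) ∧
      Nonempty (G ≃g Gᶜ) ∧
      {T : Finset (Fin (4 * k + 1)) | G.IsNClique 3 T ∧ v ∈ T}.ncard = k * (k - 1) ∧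
      ∀ P : G ≃g Gᶜ, P v ≠ v :=
  ⟨2, Gr, (1 : Fin 9), degree_four, anti, triangles, notFixed⟩

end Pool.Agent.Results.MP_b6be33_co.NineVertexCounterexample
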